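import Pool.Agent.H286Z.EA.Quad

set_option autoImplicit false
set_option maxHeartbeats 400000

namespace Pool.Agent.H286Z.EA
open Finset

/-- truncation or extension by zero -/
def res {M n : ℕ} (x : U M) : U n := fun i => if h : i.1 < M + 1 then x ⟨i, h⟩ else 0
/-- the same on blocks -/
def resV {M n : ℕ} (k : V M) : V n := (res k.1, res k.2)

lemma res_add {M n : ℕ} (x y : U M) : (res (x + y) : U n) = res x + res y := by
  funext i; simp only [res, Pi.add_apply]; split_ifs <;> simp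

lemma resV_add {M n : ℕ} (x y : V M) : (resV (x + y) : V n) = resV x + resV y :=
  Prod.ext (res_add _ _) (res_add _ _)

lemma resV_zero {M n : ℕ} : (resV (0 : V M) : V n) = 0 := by
  ext i <;> simp [resV, res]

lemma resV_e1 {M n : ℕ} : (resV (e1 : V M) : V n) = e1 := by
  ext i
  · simp only [resV, res, e1, Pi.single_apply, Fin.ext_iff]
    split_ifs <;> simp_all
  · simp [resV, res, e1]

lemma resV_lin {M n : ℕ} (h : n ≤ M) (i : Fin 3) (k : V M) :
    (resV (lin i k) : V n) = lin i (resV k) := by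
  have : ∀ x : U M, (res (tm x) : U n) = tm (res x) := fun x => funext fun j => by
    refine Fin.cases (by simp [res, tm]) (fun j => ?_) j
    have h1 : j.1 < M := by omega
    have h2 : (⟨j.succ, by simp; omega⟩ : Fin (M + 1)) = Fin.succ ⟨j, h1⟩ := rfl
    simp only [res, tm, Fin.cons_succ, Fin.init]
    rw [dif_pos (by simp; omega), dif_pos (by simp; omega), h2, Fin.cons_succ]
    rfl
  fin_cases i <;> simp [resV, lin, res_add, this]

lemma resV_resV {M n : ℕ} (h : n ≤ M) (w : V n) : resV (resV w : V M) = w := by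
  ext i <;> exact (dif_pos (i.2.trans_le (by omega))).trans (dif_pos i.2)

lemma tm_add {n : ℕ} (x y : U n) : tm (x + y) = tm x + tm y := funext fun j => by
  refine Fin.cases (by simp [tm]) (fun j => by simp [tm, Fin.init]) j

lemma lin_add {n : ℕ} (i : Fin 3) (x y : V n) : lin i (x + y) = lin i x + lin i y := by
  fin_cases i <;> simp [lin, tm_add] <;> abel

lemma all_vec {n : ℕ} (T : AddSubmonoid (V n)) (h1 : e1 ∈ T) (h2 : ∀ i, ∀ v ∈ T, lin i v ∈ T)
    (v : V n) : v ∈ T := by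
  have a1 : ∀ i : Fin (n + 1), ((Pi.single i 1, 0) : V n) ∈ T := fun i => by
    induction i using Fin.induction with
    | zero => exact h1
    | succ i ih =>
      have b := T.add_mem (h2 1 _ (h2 2 _ ih)) (h2 2 _ ih)
      have c : tm (Pi.single i.castSucc 1 : U n) = Pi.single i.succ 1 := funext fun j => by
        refine Fin.cases (by simp [tm]) (fun j => by simp [tm, Fin.init, Pi.single_apply]) j
      simpa [lin, U_add, c] using b
  have a2 : ∀ x : U n, ((x, 0) : V n) ∈ T := fun x => by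
    have : ((x, 0) : V n) = ∑ i, ((Pi.single i (x i), 0) : V n) := by
      ext j <;> simp [Prod.fst_sum, Prod.snd_sum, Pi.single_apply]
    rw [this]
    refine T.sum_mem fun i _ => ?_
    rcases z2 (x i) with e | e
    · rw [e, Pi.single_zero]; exact T.zero_mem
    · exact e ▸ a1 i
  simpa [lin] using T.add_mem (a2 v.1) (h2 2 _ (a2 v.2))

/-- the vertex set -/
abbrev X (m : ℕ → ℕ) := Σ j, V (m j)

/-- outgoing part of a block -/
def Out (m : ℕ → ℕ) (j : ℕ) : Finset (V (m j)) := if m (j + 1) = m j then L _ else univ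

lemma ex_pq {α β : Type} [Zero α] [Zero β] (A : Finset α) (B : Finset β) (h : #A = #B) :
    ∃ p : α → β, ∃ q : β → α, (∀ v ∈ A, p v ∈ B ∧ q (p v) = v) ∧
      ∀ w ∈ B, q w ∈ A ∧ p (q w) = w := by
  classical
  let e := equivOfCardEq h
  refine ⟨fun v => if h : v ∈ A then e ⟨v, h⟩ else 0,
    fun w => if h : w ∈ B then e.symm ⟨w, h⟩ else 0, fun v hv => ?_, fun w hw => ?_⟩ <;> simp [*]

/-- the link involutions -/
def link {m : ℕ → ℕ} (p : ∀ j, V (m j) → V (m (j + 1))) (q : ∀ j, V (m (j + 1)) → V (m j))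
    (s : ℕ) : X m → X m
  | ⟨0, v⟩ => if 0 % 2 = s ∧ v ∈ Out m 0 then ⟨1, p 0 v⟩ else ⟨0, v⟩
  | ⟨j + 1, v⟩ => if (j + 1) % 2 = s ∧ v ∈ Out m (j + 1) then ⟨j + 2, p (j + 1) v⟩ else
      if j % 2 = s ∧ v ∈ L _ then ⟨j, q j v⟩ else ⟨j + 1, v⟩

/-- what is needed from a link -/
structure IsLink {m : ℕ → ℕ} (s : ℕ) (u : X m → X m) : Prop where
  inv : Function.Involutive u
  le : ∀ x, (u x).1 ≤ x.1 + 1
  fix : ∀ j, j % 2 = s → ∀ v ∉ L _, u ⟨j + 1, v⟩ = ⟨j + 1, v⟩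
  ex : ∀ j, j % 2 = s → ∃ v w, u ⟨j, v⟩ = ⟨j + 1, w⟩
  sum : ∀ j, j % 2 = s → ∀ g : X m → ℝ,
    ∑ w ∈ L _, g (u ⟨j + 1, w⟩) = ∑ v ∈ Out m j, g ⟨j, v⟩

lemma ex_link (m : ℕ → ℕ) (hm : ∀ j, m (j + 1) = m j ∨ m (j + 1) = m j + 1) (s : ℕ) :
    ∃ u : X m → X m, IsLink s u := by
  have hc : ∀ j, #(Out m j) = #(L (m (j + 1))) := fun j => by
    rw [L_card, Out]
    split_ifs with h
    · rw [L_card, h]
    · rw [card_univ, card_V, (hm j).resolve_left h]
  choose p q hp hq using fun j => ex_pq _ _ (hc j)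
  have a1 : ∀ j, j % 2 = s → ∀ v ∈ Out m j, link p q s ⟨j, v⟩ = ⟨j + 1, p j v⟩ := by
    rintro (_ | j) h v hv <;> exact if_pos ⟨h, hv⟩
  have a2 : ∀ j, j % 2 = s → ∀ v ∈ L _, link p q s ⟨j + 1, v⟩ = ⟨j, q j v⟩ := fun j h v hv => by
    rw [link, if_neg (by omega), if_pos ⟨h, hv⟩]
  have a3 : ∀ x, link p q s x = x ∨ (∃ j v, j % 2 = s ∧ v ∈ Out m j ∧ x = ⟨j, v⟩) ∨
      ∃ j v, j % 2 = s ∧ v ∈ L _ ∧ x = ⟨j + 1, v⟩ := by
    rintro ⟨_ | j, v⟩ <;> rw [link] <;> split_ifs with h h'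
    exacts [.inr (.inl ⟨_, _, h.1, h.2, rfl⟩), .inl rfl, .inr (.inl ⟨_, _, h.1, h.2, rfl⟩),
      .inr (.inr ⟨_, _, h'.1, h'.2, rfl⟩), .inl rfl]
  refine ⟨link p q s, fun x => ?_, fun x => ?_, fun j h v hv => ?_, fun j h => ?_, fun j h g => ?_⟩
  · rcases a3 x with e | ⟨j, v, h, hv, rfl⟩ | ⟨j, v, h, hv, rfl⟩
    · rw [e, e]
    · rw [a1 j h v hv, a2 j h _ (hp j v hv).1, (hp j v hv).2]
    · rw [a2 j h v hv, a1 j h _ (hq j v hv).1, (hq j v hv).2]
  · rcases a3 x with e | ⟨j, v, h, hv, rfl⟩ | ⟨j, v, h, hv, rfl⟩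
    · rw [e]; omega
    · rw [a1 j h v hv]
    · rw [a2 j h v hv]; simp only; omega
  · rw [link, if_neg (by omega), if_neg fun h' => hv h'.2]
  · obtain ⟨v, hv⟩ := card_pos.1 (show 0 < #(Out m j) by rw [hc, L_card]; positivity)
    exact ⟨v, _, a1 j h v hv⟩
  · exact sum_nbij' (q j) (p j) (fun v hv => (hq j v hv).1) (fun v hv => (hp j v hv).1)
      (fun v hv => (hq j v hv).2) (fun v hv => (hp j v hv).2) fun v hv => by rw [a2 j h v hv]

/-- the six generators -/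
def gen {m : ℕ → ℕ} (u : Fin 2 → X m → X m) : Option (Fin 3 ⊕ Fin 2) → X m → X m
  | none, x => ⟨x.1, x.2 + e1⟩
  | some (.inl i), x => ⟨x.1, lin i x.2⟩
  | some (.inr s), x => u s x

variable {m : ℕ → ℕ} {u : Fin 2 → X m → X m}

lemma gen_inv (hu : ∀ s : Fin 2, IsLink s (u s)) (i : Option (Fin 3 ⊕ Fin 2)) :
    Function.Involutive (gen u i) := by
  rcases i with _ | i | s <;> intro x
  · rw [gen, gen, add_assoc, V_add, add_zero]
  · simp [gen, lin_lin]
  · exact (hu s).inv x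

lemma gen_le (hu : ∀ s : Fin 2, IsLink s (u s)) (i : Option (Fin 3 ⊕ Fin 2)) (x : X m) :
    (gen u i x).1 ≤ x.1 + 1 := by
  rcases i with _ | i | s
  exacts [Nat.le_succ _, Nat.le_succ _, (hu s).le x]

variable {G : Type} [Group G] [MulAction G (X m)] {g : Option (Fin 3 ⊕ Fin 2) → G}

lemma trans (hu : ∀ s : Fin 2, IsLink s (u s)) (hg : ∀ i x, g i • x = gen u i x) :
    MulAction.IsPretransitive G (X m) := by
  have a1 : ∀ j (v w : V (m j)), ∃ c : G, c • (⟨j, v⟩ : X m) = ⟨j, w⟩ := fun j v w => by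
    obtain ⟨c, hc⟩ := all_vec ⟨⟨{t | ∃ c : G, ∀ x, c • (⟨j, x⟩ : X m) = ⟨j, x + t⟩},
      fun ⟨c, hc⟩ ⟨c', hc'⟩ => ⟨c' * c, fun x => by rw [mul_smul, hc, hc', add_assoc]⟩⟩,
      ⟨1, fun x => by simp⟩⟩ ⟨g none, fun x => hg _ _⟩ (fun i t ⟨c, hc⟩ =>
        ⟨g (some (.inl i)) * c * g (some (.inl i)), fun x => by
          simp [mul_smul, hg, gen, hc, lin_add, lin_lin]⟩) (v + w)
    exact ⟨c, by rw [hc, ← add_assoc, V_add, zero_add]⟩
  have a2 : ∀ j (w : V (m j)), ∃ c : G, c • (⟨0, 0⟩ : X m) = ⟨j, w⟩ := fun j => by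
    induction j with
    | zero => exact a1 0 0
    | succ j ih =>
      intro w
      obtain ⟨v, w', h⟩ := (hu ⟨j % 2, by omega⟩).ex j rfl
      obtain ⟨c, hc⟩ := ih v
      obtain ⟨c', hc'⟩ := a1 _ w' w
      exact ⟨c' * g (some (.inr ⟨j % 2, by omega⟩)) * c, by
        rw [mul_smul, mul_smul, hc, hg, gen, h, hc']⟩
  refine ⟨fun x y => ?_⟩
  obtain ⟨c, hc⟩ := a2 x.1 x.2
  obtain ⟨c', hc'⟩ := a2 y.1 y.2
  exact ⟨c' * c⁻¹, by rw [mul_smul, show x = c • ⟨0, 0⟩ from hc.symm, inv_smul_smul, hc']⟩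

lemma growth (hu : ∀ s : Fin 2, IsLink s (u s)) (hg : ∀ i x, g i • x = gen u i x)
    (S : Finset G) (hS : ∀ s ∈ S, ∃ i, g i = s) (n B : ℕ) (hB : ∀ j ≤ n, 4 ^ (m j + 1) ≤ B) :
    Set.ncard {y : X m | ∃ l : List G, l.length ≤ n ∧ (∀ s ∈ l, s ∈ S ∨ s⁻¹ ∈ S) ∧
      l.prod • (⟨0, 0⟩ : X m) = y} ≤ (n + 1) * B := by
  have a1 : ∀ l : List G, (∀ s ∈ l, s ∈ S ∨ s⁻¹ ∈ S) →
      (l.prod • (⟨0, 0⟩ : X m)).1 ≤ l.length := fun l => by
    induction l with
    | nil => simp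
    | cons s l ih =>
      intro h
      have b := ih fun t ht => h t (by simp [ht])
      rw [List.prod_cons, mul_smul, List.length_cons]
      rcases h s (by simp) with h | h <;> obtain ⟨i, hi⟩ := hS _ h
      · rw [← hi, hg]; exact (gen_le hu _ _).trans (by omega)
      · rw [show ∀ x : X m, s • x = gen u i x from fun x => by
          rw [← inv_inv s, inv_smul_eq_iff, ← hi, hg, gen_inv hu]]
        exact (gen_le hu _ _).trans (by omega)
  refine (Set.ncard_le_ncard (t := ((range (n + 1)).sigma fun _ => univ : Finset (X m))) ?_).trans ?_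
  · rintro y ⟨l, h1, h2, rfl⟩
    have := a1 l h2
    simp only [coe_sigma, Set.mem_sigma_iff, coe_range, Set.mem_Iio, coe_univ, Set.mem_univ]
    exact ⟨by omega, trivial⟩
  · rw [Set.ncard_coe_finset, card_sigma]
    refine (sum_le_card_nsmul _ _ B fun j hj => ?_).trans (by simp)
    rw [card_univ, card_V]
    exact hB j (by simpa [Nat.lt_succ_iff] using hj)

end Pool.Agent.H286Z.EA
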