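import Pool.Agent.H286Z.EA.Spec

set_option autoImplicit false
set_option maxHeartbeats 400000

namespace Pool.Agent.H286Z.EA
open Finset

/-- finitely additive probability -/
structure Mean {Y : Type} (m : Set Y → ℝ) : Prop where
  pos : ∀ A, 0 ≤ m A
  one : m Set.univ = 1
  add : ∀ A B, Disjoint A B → m (A ∪ B) = m A + m B

variable {Y : Type} {m : Set Y → ℝ}

lemma Mean.empty (h : Mean m) : m ∅ = 0 := by
  have := h.add ∅ ∅ (by simp)
  rw [Set.union_empty] at this; linarith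

lemma Mean.mono (h : Mean m) {A B : Set Y} (hAB : A ⊆ B) : m A ≤ m B := by
  have := h.add A (B \ A) Set.disjoint_sdiff_right
  rw [Set.union_diff_cancel hAB] at this
  linarith [h.pos (B \ A)]

lemma Mean.union_le (h : Mean m) (A B : Set Y) : m (A ∪ B) ≤ m A + m B := by
  have := h.add A (B \ A) Set.disjoint_sdiff_right
  rw [Set.union_diff_self] at this
  linarith [h.mono (Set.diff_subset : B \ A ⊆ B)]

lemma Mean.biUnion {ι : Type} (h : Mean m) (s : Finset ι) (A : ι → Set Y)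
    (hd : ∀ i ∈ s, ∀ j ∈ s, i ≠ j → Disjoint (A i) (A j)) :
    m (⋃ i ∈ s, A i) = ∑ i ∈ s, m (A i) := by
  classical
  induction s using Finset.induction_on with
  | empty => simpa using h.empty
  | insert a s ha ih =>
    rw [set_biUnion_insert, sum_insert ha, h.add,
      ih fun i hi j hj => hd i (by simp [hi]) j (by simp [hj])]
    exact Set.disjoint_iUnion₂_right.2 fun i hi =>
      hd a (by simp) i (by simp [hi]) fun e => ha (e ▸ hi)

lemma expand_step [DecidableEq Y] {M : ℕ} (Ω : Finset Y) (τ : V M → Y → Y) (σ : Fin 3 → Y → Y)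
    (hτΩ : ∀ k, ∀ y ∈ Ω, τ k y ∈ Ω) (hσΩ : ∀ i, ∀ y ∈ Ω, σ i y ∈ Ω)
    (h0 : ∀ y, τ 0 y = y) (hadd : ∀ k k' y, τ (k + k') y = τ k' (τ k y))
    (hσ : ∀ i y, σ i (σ i y) = y) (hc : ∀ i k, ∀ y ∈ Ω, σ i (τ k y) = τ (lin i k) (σ i y))
    (Z Z' : Finset Y) (h1 : Z ⊆ Z') (h2 : Z' ⊆ Ω) (h3 : #Z' ≤ 8 * #Z)
    (hd : ∀ y ∈ Ω, 30 * #(univ.filter fun k => τ k y ∈ Z) ≤ Fintype.card (V M)) (n : ℕ)
    (h4 : #(Z' ∪ Z'.image (τ e1)) ≤ n) (h5 : ∀ i, #(Z' ∪ Z'.image (σ i)) ≤ n) :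
    #Z + 1000 * #Z' ≤ 1000 * n := by
  have hinv : ∀ k y, τ k (τ k y) = y := fun k y => by rw [← hadd, V_add, h0]
  have hs : ∀ (s : Y → Y) (W : Finset Y), (∀ y, s (s y) = y) → (∀ y ∈ Ω, s y ∈ Ω) → W ⊆ Ω →
      ∑ y : Ω, (if s y ∈ W then (1 : ℝ) else 0) = #W := by
    intro s W a1 a2 a3
    rw [sum_coe_sort Ω fun y => if s y ∈ W then (1 : ℝ) else 0, sum_boole]
    congr 1
    refine card_nbij' s s (fun y hy => (mem_filter.1 hy).2) (fun y hy => ?_) (fun y _ => a1 y)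
      fun y _ => a1 y
    exact mem_filter.2 ⟨a2 y (a3 hy), by rwa [a1]⟩
  have hb : ∀ s : Y → Y, (∀ y, s (s y) = y) → (∀ y ∈ Ω, s y ∈ Ω) → #(Z' ∪ Z'.image s) ≤ n →
      ∑ y : Ω, ((if s y ∈ Z' then (1 : ℝ) else 0) - if y.1 ∈ Z' then 1 else 0) ^ 2 ≤
        2 * ((n : ℝ) - #Z') := by
    intro s a1 a2 a3
    have b1 := hs s Z' a1 a2 h2
    have b2 := hs id Z' (fun _ => rfl) (fun _ h => h) h2
    have b3 := hs id (Z' ∪ Z'.image s) (fun _ => rfl) (fun _ h => h)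
      (union_subset h2 (image_subset_iff.2 fun y hy => a2 y (h2 hy)))
    have b4 : (#(Z' ∪ Z'.image s) : ℝ) ≤ n := by exact_mod_cast a3
    have b5 : ∀ y, y ∈ Z'.image s ↔ s y ∈ Z' := fun y => by
      rw [mem_image]
      exact ⟨fun ⟨x, hx, e⟩ => by rwa [← e, a1], fun h => ⟨_, h, a1 y⟩⟩
    calc _ = ∑ y : Ω, (2 * (if id y.1 ∈ Z' ∪ Z'.image s then (1 : ℝ) else 0) -
          (if s y ∈ Z' then 1 else 0) - if id y.1 ∈ Z' then 1 else 0) := by
          refine sum_congr rfl fun y _ => ?_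
          simp only [id, mem_union, b5]
          by_cases c1 : s y ∈ Z' <;> by_cases c2 : y.1 ∈ Z' <;> simp [c1, c2] <;> norm_num
      _ ≤ _ := by rw [sum_sub_distrib, sum_sub_distrib, ← mul_sum, b1, b2, b3]; linarith
  have sp := spectral (Y := Ω) (fun k y => ⟨τ k y, hτΩ k y y.2⟩) (fun i y => ⟨σ i y, hσΩ i y y.2⟩)
    (fun y => Subtype.ext (h0 y)) (fun k k' y => Subtype.ext (hadd k k' y))
    (fun i y => Subtype.ext (hσ i y)) (fun i k y => Subtype.ext (hc i k y y.2))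
    (fun y => if y.1 ∈ Z' then 1 else 0) _ (hb _ (hinv e1) (hτΩ e1) h4)
    fun i => hb _ (hσ i) (hσΩ i) (h5 i)
  have hN : (0 : ℝ) < Fintype.card (V M) := by exact_mod_cast Fintype.card_pos
  have c1 : ∑ y : Ω, (if y.1 ∈ Z' then (1 : ℝ) else 0) ^ 2 = #Z' := by
    rw [← hs id Z' (fun _ => rfl) (fun _ h => h) h2]
    exact sum_congr rfl fun y _ => by simp
  have c2 : ∀ W ⊆ Ω, ∑ y : Ω, ∑ k, (if τ k y ∈ W then (1 : ℝ) else 0) =
      Fintype.card (V M) * #W := fun W hW => by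
    rw [sum_comm]
    simp only [hs _ W (hinv _) (hτΩ _) hW, sum_const, card_univ, nsmul_eq_mul]
  have c3 : ∑ y : Ω, (∑ k, if τ k y ∈ Z' then (1 : ℝ) else 0) ^ 2 ≤
      ∑ y : Ω, (Fintype.card (V M) / 30 * ∑ k, (if τ k y ∈ Z then (1 : ℝ) else 0) +
        (Fintype.card (V M) / 15 + Fintype.card (V M)) *
          ∑ k, (if τ k y ∈ Z' \ Z then (1 : ℝ) else 0)) := by
    refine sum_le_sum fun y _ => ?_
    have d1 : ∑ k, (if τ k y ∈ Z' then (1 : ℝ) else 0) = ∑ k, (if τ k y ∈ Z then (1 : ℝ) else 0) +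
        ∑ k, (if τ k y ∈ Z' \ Z then (1 : ℝ) else 0) := by
      rw [← sum_add_distrib]
      refine sum_congr rfl fun k _ => ?_
      have := @h1 (τ k y)
      by_cases c1 : τ k y ∈ Z <;> by_cases c2 : τ k y ∈ Z' <;> simp_all
    have d2 : 30 * ∑ k, (if τ k y ∈ Z then (1 : ℝ) else 0) ≤ Fintype.card (V M) := by
      rw [sum_boole]; exact_mod_cast hd y y.2
    have d3 : ∑ k, (if τ k y ∈ Z' \ Z then (1 : ℝ) else 0) ≤ Fintype.card (V M) := by
      rw [sum_boole]; exact_mod_cast card_le_univ _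
    have d4 : 0 ≤ ∑ k, (if τ k y ∈ Z then (1 : ℝ) else 0) := sum_nonneg fun _ _ => by positivity
    have d5 : 0 ≤ ∑ k, (if τ k y ∈ Z' \ Z then (1 : ℝ) else 0) :=
      sum_nonneg fun _ _ => by positivity
    rw [d1]
    generalize (∑ k, (if τ k y ∈ Z then (1 : ℝ) else 0)) = p at *
    generalize (∑ k, (if τ k y ∈ Z' \ Z then (1 : ℝ) else 0)) = q at *
    nlinarith [mul_nonneg d4 (sub_nonneg.2 d2), mul_nonneg d5 (sub_nonneg.2 d2),
      mul_nonneg d5 (sub_nonneg.2 d3)]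
  rw [sum_add_distrib, ← mul_sum, ← mul_sum, c2 Z (h1.trans h2), c2 _ (sdiff_subset.trans h2),
    card_sdiff_of_subset h1, Nat.cast_sub (card_le_card h1)] at c3
  simp only [c1] at sp
  have c4 : (#Z' : ℝ) ≤ 8 * #Z := by exact_mod_cast h3
  generalize (Fintype.card (V M) : ℝ) = N at *
  have c5 : N ^ 2 * (#Z + 1000 * #Z') ≤ N ^ 2 * (1000 * n) := by nlinarith [sq_nonneg N]
  exact_mod_cast le_of_mul_le_mul_left c5 (by positivity)

variable {G : Type} [Group G] [MulAction G Y]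

/-- one step neighbourhood -/
def nbh [DecidableEq Y] (W : Finset G) (Z : Finset Y) : Finset Y :=
  W.biUnion fun w => Z.image fun y => w • y

lemma bad_small [DecidableEq Y] (h : Mean m) (hG : ∀ (g : G) A, m ((fun y => g • y) ⁻¹' A) = m A)
    (W : Finset G) (h1 : 1 ∈ W) (Bad : Set Y)
    (hexp : ∀ Z Z' : Finset Y, (∀ y ∈ Z, y ∈ Bad) → Z ⊆ Z' → #Z' ≤ 8 * #Z →
      #Z + 1000 * #Z' ≤ 1000 * #(nbh W Z')) : 8 * m Bad ≤ 1 := by
  classical
  have a0 : ∀ Z : Finset Y, Z ⊆ nbh W Z := fun Z y hy =>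
    mem_biUnion.2 ⟨1, h1, mem_image.2 ⟨y, hy, one_smul _ _⟩⟩
  have a1 : ∀ (Z : Finset Y), (∀ y ∈ Z, y ∈ Bad) → ∀ i, Z ⊆ (nbh W)^[i] Z ∧
      (8 * #Z ≤ #((nbh W)^[i] Z) ∨ i * #Z ≤ 1000 * #((nbh W)^[i] Z)) := by
    intro Z hZ i
    induction i with
    | zero => simp
    | succ i ih =>
      rw [Function.iterate_succ_apply']
      refine ⟨ih.1.trans (a0 _), ?_⟩
      have := card_le_card (a0 ((nbh W)^[i] Z))
      by_cases h8 : 8 * #Z ≤ #((nbh W)^[i] Z)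
      · left; omega
      · have b1 := hexp Z _ hZ ih.1 (by omega)
        have b2 := ih.2.resolve_left h8
        right; rw [add_mul]; omega
  have a2 : ∀ i, ∃ T : Finset G, ∀ (Z : Finset Y), (nbh W)^[i] Z ⊆ nbh T Z := by
    intro i
    induction i with
    | zero => exact ⟨W, a0⟩
    | succ i ih =>
      obtain ⟨T, hT⟩ := ih
      refine ⟨image₂ (· * ·) W T, fun Z y hy => ?_⟩
      rw [Function.iterate_succ_apply'] at hy
      obtain ⟨w, hw, hy⟩ := mem_biUnion.1 hy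
      obtain ⟨x, hx, rfl⟩ := mem_image.1 hy
      obtain ⟨t, ht, hx⟩ := mem_biUnion.1 (hT Z hx)
      obtain ⟨z, hz, rfl⟩ := mem_image.1 hx
      exact mem_biUnion.2 ⟨w * t, mem_image₂_of_mem hw ht, mem_image.2 ⟨z, hz, mul_smul _ _ _⟩⟩
  obtain ⟨T, hT⟩ := a2 8000
  obtain ⟨f, hf, hf'⟩ := (all_card_le_biUnion_card_iff_exists_injective
    fun p : Bad × Fin 8 => T.image fun g => g • p.1.1).1 fun s => by
      have b1 := a1 (s.image fun p => p.1.1) (fun y hy => by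
        obtain ⟨p, _, rfl⟩ := mem_image.1 hy; exact p.1.2) 8000
      have b2 : #s ≤ 8 * #(s.image fun p => p.1.1) := card_le_mul_card_image _ _ fun y _ => by
        refine (card_le_card_of_injOn (t := (univ : Finset (Fin 8))) Prod.snd
          (fun _ _ => mem_coe.2 (mem_univ _)) fun p hp q hq e => ?_).trans (by simp)
        exact Prod.ext (Subtype.ext ((mem_filter.1 hp).2.trans (mem_filter.1 hq).2.symm)) e
      have b3 : nbh T (s.image fun p => p.1.1) ⊆ s.biUnion fun p => T.image fun g => g • p.1.1 := by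
        intro y hy
        obtain ⟨t, ht, hy⟩ := mem_biUnion.1 hy
        obtain ⟨x, hx, rfl⟩ := mem_image.1 hy
        obtain ⟨p, hp, rfl⟩ := mem_image.1 hx
        exact mem_biUnion.2 ⟨p, hp, mem_image_of_mem _ ht⟩
      have b4 := card_le_card ((hT _).trans b3)
      rcases b1.2 with b | b <;> omega
  choose w hw hw' using fun p => mem_image.1 (hf' p)
  let A : Fin 8 × G → Set Y := fun q => {y | ∃ hy : y ∈ Bad, w (⟨y, hy⟩, q.1) = q.2}
  have c1 : ∀ i, ∑ g ∈ T, m (A (i, g)) = m Bad := fun i => by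
    rw [← h.biUnion T (fun g => A (i, g)) fun g _ g' _ hne => Set.disjoint_left.2
      fun y ⟨_, e⟩ ⟨_, e'⟩ => hne (e.symm.trans e')]
    congr 1
    ext y
    simp only [Set.mem_iUnion]
    exact ⟨fun ⟨_, _, hy, _⟩ => hy, fun hy => ⟨_, hw (⟨y, hy⟩, i), hy, rfl⟩⟩
  have c2 := h.biUnion (univ ×ˢ T) (fun q => (fun y => q.2⁻¹ • y) ⁻¹' A q) fun q _ q' _ hne =>
    Set.disjoint_left.2 fun y ⟨hy, e⟩ ⟨hy', e'⟩ => hne (by
      have d1 := hw' (⟨_, hy⟩, q.1)
      have d2 := hw' (⟨_, hy'⟩, q'.1)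
      rw [e, smul_inv_smul] at d1
      rw [e', smul_inv_smul] at d2
      have d3 := hf (d1.symm.trans d2)
      exact Prod.ext (congrArg Prod.snd d3) (by rw [← e, ← e', d3]))
  simp only [hG, sum_product, c1, sum_const, card_univ, Fintype.card_fin, nsmul_eq_mul] at c2
  have := h.mono (Set.subset_univ (⋃ q ∈ univ ×ˢ T, (fun y => q.2⁻¹ • y) ⁻¹' A q))
  rw [c2, h.one] at this
  exact_mod_cast this

end Pool.Agent.H286Z.EA
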