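import Pool.Agent.H286Z.EA.Graph
import Pool.Agent.H286Z.EA.Hall

set_option autoImplicit false
set_option maxHeartbeats 400000

namespace Pool.Agent.H286Z.EA
open Finset Pointwise

/-- deviation from equidistribution -/
noncomputable def dev {n : ℕ} (f : V n → ℝ) : ℝ :=
  |4 * ∑ v ∈ L n, f v - ∑ v, f v| / Fintype.card (V n)

lemma dev_pos {n : ℕ} (f : V n → ℝ) : 0 ≤ dev f := by unfold dev; positivity

lemma dev_avg {M n : ℕ} (h : n ≤ M) (f : V n → ℝ) (ε : ℝ) (hε : 0 < ε) (hf : ∀ v, |f v| ≤ 1)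
    (h' : 1 ≤ ε ^ 2 * 2 ^ (n / 2)) :
    ∑ k : V M, dev (fun v => f (v + resV k)) ≤ 3 * ε * Fintype.card (V M) := by
  have hN : (0 : ℝ) < Fintype.card (V n) := by exact_mod_cast Fintype.card_pos
  have a1 : ∑ w, dev (fun v => f (v + w)) ≤ 3 * ε * Fintype.card (V n) := by
    unfold dev
    rw [← sum_div, div_le_iff₀ hN, mul_assoc, ← sq]
    exact L_avg f ε hε hf h'
  have a2 : ∀ w : V n, ∑ k : V M, dev (fun v => f (v + resV k)) =
      ∑ k : V M, dev (fun v => f (v + (resV k + w))) := fun w => by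
    rw [← Equiv.sum_comp (Equiv.addRight (resV w))]
    simp only [Equiv.coe_addRight, resV_add, resV_resV h]
  have a3 := sum_congr rfl fun w (_ : w ∈ univ) => a2 w
  rw [sum_const, sum_comm, card_univ, nsmul_eq_mul] at a3
  have a4 : ∀ k : V M, ∑ w, dev (fun v => f (v + (resV k + w))) ≤ 3 * ε * Fintype.card (V n) :=
    fun k => (Equiv.sum_comp (Equiv.addLeft (resV k)) fun w => dev (fun v => f (v + w))).trans_le a1
  have a5 := sum_le_card_nsmul univ _ _ fun k _ => a4 k
  rw [← a3, card_univ, nsmul_eq_mul] at a5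
  nlinarith

variable {m : ℕ → ℕ}

lemma chain (hm : ∀ j, m (j + 1) = m j ∨ m (j + 1) = m j + 1) {s : ℕ} {u : X m → X m}
    (hu : IsLink s u) (j : ℕ) (hj : j % 2 = s) (f : X m → ℝ) :
    (∑ v, f ⟨j, v⟩) / Fintype.card (V (m j)) ≤ (∑ v, f ⟨j + 1, v⟩) / Fintype.card (V (m (j + 1))) +
      dev (fun v => f ⟨j, v⟩) + 4 / 3 * dev (fun v => f (u ⟨j + 1, v⟩)) +
      dev (fun v => f ⟨j + 1, v⟩) / 3 := by
  have hN : ∀ n, (0 : ℝ) < Fintype.card (V n) := fun n => by exact_mod_cast Fintype.card_pos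
  have a1 : (∑ v, f ⟨j, v⟩) / Fintype.card (V (m j)) ≤
      4 * (∑ v ∈ Out m j, f ⟨j, v⟩) / Fintype.card (V (m (j + 1))) + dev (fun v => f ⟨j, v⟩) := by
    unfold Out
    split_ifs with h
    · rw [show Fintype.card (V (m (j + 1))) = Fintype.card (V (m j)) by rw [h], dev, ← add_div]
      gcongr
      linarith [neg_abs_le (4 * ∑ v ∈ L (m j), f ⟨j, v⟩ - ∑ v, f ⟨j, v⟩)]
    · rw [card_V (m (j + 1)), (hm j).resolve_left h, pow_succ', ← card_V, Nat.cast_mul,
        Nat.cast_ofNat, mul_div_mul_left _ _ (by norm_num)]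
      linarith [dev_pos fun v => f ⟨j, v⟩]
  have a2 := sum_add_sum_compl (L (m (j + 1))) fun v => f (u ⟨j + 1, v⟩)
  have a3 := sum_add_sum_compl (L (m (j + 1))) fun v => f ⟨j + 1, v⟩
  rw [sum_congr rfl fun v hv => congrArg f (hu.fix j hj v (mem_compl.1 hv))] at a2
  rw [← hu.sum j hj f] at a1
  have a4 : 4 * (∑ v ∈ L _, f (u ⟨j + 1, v⟩)) / Fintype.card (V (m (j + 1))) ≤
      (∑ v, f ⟨j + 1, v⟩) / Fintype.card (V (m (j + 1))) +
      4 / 3 * dev (fun v => f (u ⟨j + 1, v⟩)) + dev (fun v => f ⟨j + 1, v⟩) / 3 := by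
    unfold dev
    rw [← mul_div_assoc, div_right_comm, ← add_div, ← add_div]
    gcongr
    linarith [neg_abs_le (4 * ∑ v ∈ L (m (j + 1)), f ⟨j + 1, v⟩ - ∑ v, f ⟨j + 1, v⟩),
      le_abs_self (4 * ∑ v ∈ L (m (j + 1)), f (u ⟨j + 1, v⟩) - ∑ v, f (u ⟨j + 1, v⟩))]
  linarith

/-- total deviation over the first blocks -/
noncomputable def tot (n : ℕ) (f : X m → ℝ) : ℝ := ∑ j ∈ range n, dev fun v => f ⟨j, v⟩

lemma tot_mono (f : X m → ℝ) : Monotone fun n => tot n f :=
  monotone_nat_of_le_succ fun n => by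
    simp only [tot, sum_range_succ]; linarith [dev_pos fun v => f ⟨n, v⟩]

lemma chain_all (hm : ∀ j, m (j + 1) = m j ∨ m (j + 1) = m j + 1) {u : Fin 2 → X m → X m}
    (hu : ∀ s : Fin 2, IsLink s (u s)) (f : X m → ℝ) (n : ℕ) :
    (∑ v, f ⟨0, v⟩) / Fintype.card (V (m 0)) ≤ (∑ v, f ⟨n, v⟩) / Fintype.card (V (m n)) +
      tot n f + 4 / 3 * (tot (n + 1) (fun x => f (u 0 x)) + tot (n + 1) fun x => f (u 1 x)) +
      tot (n + 1) f / 3 := by
  induction n with
  | zero =>
    simp only [tot, sum_range_succ, sum_range_zero]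
    linarith [dev_pos fun v => f ⟨0, v⟩, dev_pos fun v => f (u 0 ⟨0, v⟩),
      dev_pos fun v => f (u 1 ⟨0, v⟩)]
  | succ n ih =>
    simp only [tot, sum_range_succ] at ih ⊢
    have b0 := dev_pos fun v => f (u 0 ⟨n + 1, v⟩)
    have b1 := dev_pos fun v => f (u 1 ⟨n + 1, v⟩)
    rcases Nat.mod_two_eq_zero_or_one n with h | h
    · linarith [chain hm (hu 0) n h f]
    · linarith [chain hm (hu 1) n h f]

variable [DecidableEq (X m)]

/-- indicator function -/
def ind (F : Finset (X m)) (x : X m) : ℝ := if x ∈ F then 1 else 0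

lemma ind_image (F : Finset (X m)) (s : X m → X m) (hs : Function.Involutive s) :
    ind (F.image s) = fun x => ind F (s x) := funext fun x => by
  refine if_congr ?_ rfl rfl
  rw [mem_image]
  exact ⟨fun ⟨y, hy, e⟩ => by rwa [← e, hs], fun h => ⟨_, h, hs x⟩⟩

/-- global translation -/
def tr {M : ℕ} (k : V M) (x : X m) : X m := ⟨x.1, x.2 + resV k⟩

omit [DecidableEq (X m)] in
lemma tr_add {M : ℕ} (k k' : V M) (x : X m) : tr (k + k') x = tr k' (tr k x) := by
  rw [tr, resV_add, ← add_assoc]; rfl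

omit [DecidableEq (X m)] in
lemma tr_zero {M : ℕ} (x : X m) : tr (0 : V M) x = x := by rw [tr, resV_zero, add_zero]

lemma markov (hm : Monotone m) (ε : ℕ → ℝ) (hε : ∀ j, 0 < ε j)
    (h1 : ∀ j, 1 ≤ ε j ^ 2 * 2 ^ (m j / 2)) (n : ℕ) (h2 : 810 * ∑ j ∈ range n, ε j ≤ 1)
    (F : Finset (X m)) :
    30 * #{k : V (m n) | 1 / 9 < tot n (ind (F.image (tr k)))} ≤ Fintype.card (V (m n)) := by
  have a1 : ∑ k : V (m n), tot n (ind (F.image (tr k))) ≤
      ∑ j ∈ range n, 3 * ε j * Fintype.card (V (m n)) := by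
    unfold tot
    rw [sum_comm]
    refine sum_le_sum fun j hj => ?_
    have : ∀ k : V (m n), Function.Involutive (tr (m := m) k) := fun k x => by
      rw [← tr_add, V_add, tr_zero]
    simp only [ind_image F _ (this _)]
    exact dev_avg (hm (mem_range.1 hj).le) (fun v => ind F ⟨j, v⟩) _ (hε j)
      (fun v => by unfold ind; split_ifs <;> simp) (h1 j)
  have a2 := card_nsmul_le_sum (univ.filter fun k : V (m n) => 1 / 9 < tot n (ind (F.image (tr k))))
    (fun k => tot n (ind (F.image (tr k)))) (1 / 9) fun k hk => (mem_filter.1 hk).2.le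
  have a3 := sum_le_univ_sum_of_nonneg (f := fun k : V (m n) => tot n (ind (F.image (tr k))))
    (s := univ.filter fun k : V (m n) => 1 / 9 < tot n (ind (F.image (tr k))))
    fun k => sum_nonneg fun _ _ => dev_pos _
  rw [← sum_mul, ← mul_sum] at a1
  rw [nsmul_eq_mul] at a2
  have hN : (0 : ℝ) ≤ Fintype.card (V (m n)) := by positivity
  have a4 : 30 * (#{k : V (m n) | 1 / 9 < tot n (ind (F.image (tr k)))} : ℝ) ≤
      Fintype.card (V (m n)) := by nlinarith [mul_le_mul_of_nonneg_right h2 hN]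
  exact_mod_cast a4

theorem no_mean (hm : ∀ j, m (j + 1) = m j ∨ m (j + 1) = m j + 1) (ε : ℕ → ℝ) (hε : ∀ j, 0 < ε j)
    (h1 : ∀ j, 1 ≤ ε j ^ 2 * 2 ^ (m j / 2)) (h2 : ∀ n, 810 * ∑ j ∈ range n, ε j ≤ 1)
    {u : Fin 2 → X m → X m} (hu : ∀ s : Fin 2, IsLink s (u s))
    {G : Type} [Group G] [MulAction G (X m)] {g : Option (Fin 3 ⊕ Fin 2) → G}
    (hg : ∀ i x, g i • x = gen u i x) {μ : Set (Finset (X m)) → ℝ} (hμ : Mean μ)
    (hs : ∀ F A, μ ((fun E => symmDiff E F) ⁻¹' A) = μ A)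
    (hG : ∀ (c : G) A, μ ((fun E : Finset (X m) => E.image fun x => c • x) ⁻¹' A) = μ A) :
    False := by
  classical
  have hm' : Monotone m := monotone_nat_of_le_succ fun j => by rcases hm j with h | h <;> omega
  have hg' : ∀ i (F : Finset (X m)), g i • F = F.image (gen u i) := fun i F => by
    rw [← funext (hg i)]; rfl
  set Bad := {F : Finset (X m) | ∃ n, 1 / 9 < tot n (ind F)} with hB
  have a1 : 8 * μ Bad ≤ 1 := by
    refine bad_small hμ hG (insert 1 (univ.image g)) (mem_insert_self _ _) _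
      fun Z Z' b1 b2 b3 => ?_
    obtain ⟨n, c1, c2⟩ := (((Filter.eventually_all_finset Z).2 fun F hF =>
      let ⟨n, hn⟩ := b1 F hF
      (Filter.eventually_ge_atTop n).mono fun k hk => hn.trans_le (tot_mono (ind F) hk)).and
      ((Filter.eventually_all_finset Z').2 fun F _ => (Filter.eventually_all_finset F).2
        fun x _ => Filter.eventually_gt_atTop x.1)).exists
    set Ω : Finset (Finset (X m)) := ((range n).sigma fun _ => univ).powerset with hΩ
    have c3 : ∀ F, F ∈ Ω ↔ ∀ x ∈ F, x.1 < n := fun F => by simp [hΩ, subset_iff]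
    have c4 : ∀ i, #(Z' ∪ Z'.image fun F => F.image (gen u i)) ≤
        #(nbh (insert 1 (univ.image g)) Z') := fun i => by
      refine card_le_card (union_subset (fun F hF => ?_) (image_subset_iff.2 fun F hF => ?_))
      · exact mem_biUnion.2 ⟨1, mem_insert_self _ _, mem_image.2 ⟨F, hF, one_smul _ _⟩⟩
      · exact mem_biUnion.2 ⟨g i, by simp, mem_image.2 ⟨F, hF, hg' i F⟩⟩
    refine expand_step Ω (fun (k : V (m n)) F => F.image (tr k))
      (fun i F => F.image (gen u (some (.inl i)))) (fun k F hF => ?_) (fun i F hF => ?_)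
      (fun F => ?_) (fun k k' F => ?_) (fun i F => ?_) (fun i k F hF => ?_) Z Z' b2
      (fun F hF => (c3 F).2 (c2 F hF)) b3 (fun F _ => ?_) _ ?_ fun i => c4 _
    · exact (c3 _).2 (forall_mem_image.2 ((c3 F).1 hF))
    · exact (c3 _).2 (forall_mem_image.2 ((c3 F).1 hF))
    · simp [funext (tr_zero (m := m) (M := m n))]
    · simp only [image_image]; exact image_congr fun x _ => tr_add _ _ _
    · simp only [image_image]; exact (image_congr fun x _ => gen_inv hu _ x).trans image_id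
    · simp only [image_image]
      refine image_congr fun x hx => ?_
      exact congrArg (Sigma.mk x.1) ((lin_add _ _ _).trans
        (congrArg _ (resV_lin (hm' ((c3 F).1 hF x hx).le) i k).symm))
    · refine le_trans (Nat.mul_le_mul_left _ (card_le_card fun k hk => ?_))
        (markov hm' ε hε h1 n (h2 n) F)
      exact mem_filter.2 ⟨mem_univ _, c1 _ (mem_filter.1 hk).2⟩
    · have : (tr (e1 : V (m n)) : X m → X m) = gen u none := funext fun x => by
        rw [tr, resV_e1, gen]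
      simpa only [this] using c4 none
  set A := {F : Finset (X m) | 1 / 2 ≤ (∑ v, ind F ⟨0, v⟩) / Fintype.card (V (m 0))} with hA
  have hN : (0 : ℝ) < Fintype.card (V (m 0)) := by exact_mod_cast Fintype.card_pos
  have a2 : Set.univ ⊆ A ∪ (fun E => symmDiff E ((range 1).sigma fun _ => univ)) ⁻¹' A := by
    intro F _
    have : ∑ v, ind F ⟨0, v⟩ + ∑ v, ind (symmDiff F ((range 1).sigma fun _ => univ)) ⟨0, v⟩ =
        Fintype.card (V (m 0)) := by
      rw [← sum_add_distrib, ← card_univ, card_eq_sum_ones, Nat.cast_sum]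
      refine sum_congr rfl fun v _ => ?_
      by_cases h : (⟨0, v⟩ : X m) ∈ F <;> simp [ind, mem_symmDiff, h]
    simp only [hA, Set.mem_union, Set.mem_preimage, Set.mem_setOf_eq, le_div_iff₀ hN]
    by_contra h
    push Not at h
    linarith [h.1, h.2]
  have a3 : A ⊆ Bad ∪ ((fun E => E.image fun x => g (some (.inr 0)) • x) ⁻¹' Bad ∪
      (fun E => E.image fun x => g (some (.inr 1)) • x) ⁻¹' Bad) := by
    intro F hF
    by_contra h
    simp only [hB, Set.mem_union, Set.mem_preimage, Set.mem_setOf_eq, not_or, not_exists, not_lt,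
      hg, gen, ind_image F _ (hu _).inv] at h
    obtain ⟨n, hn⟩ := ((Filter.eventually_all_finset F).2
      fun x _ => Filter.eventually_gt_atTop x.1).exists
    have b1 := chain_all hm hu (ind F) n
    rw [sum_eq_zero (f := fun v => ind F ⟨n, v⟩) fun v _ => if_neg fun e => (hn _ e).false] at b1
    simp only [hA, Set.mem_setOf_eq] at hF
    linarith [h.1 n, h.1 (n + 1), h.2.1 (n + 1), h.2.2 (n + 1), zero_div (Fintype.card (V (m n)) : ℝ)]
  have b1 := (hμ.mono a2).trans (hμ.union_le _ _)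
  have b2 := (hμ.mono a3).trans ((hμ.union_le _ _).trans (add_le_add_right (hμ.union_le _ _) _))
  rw [hs, hμ.one] at b1
  rw [hG, hG] at b2
  linarith

end Pool.Agent.H286Z.EA
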