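import Pool.Agent.H286Z.EA.Spec

set_option autoImplicit false
set_option maxHeartbeats 400000

namespace Pool.Agent.H286Z.EA
open Finset

variable {m : ℕ}

/-- quadratic forms on a block -/
def qf (α β : ZMod 2) (r : U m) (v : V m) : ZMod 2 :=
  α * v.1 0 + β * v.2 0 + ∑ i, r i * v.1 i * v.2 i

lemma qf_add (α β α' β' : ZMod 2) (r r' : U m) (v : V m) :
    qf (α + α') (β + β') (r + r') v = qf α β r v + qf α' β' r' v := by
  simp only [qf, Pi.add_apply, add_mul, sum_add_distrib]; ring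

lemma qf_fst (α β : ZMod 2) (r : U m) (v : V m) (i : Fin (m + 1)) :
    qf α β r (v + (Pi.single i 1, 0)) =
      qf α β r v + (α * (Pi.single i 1 : U m) 0 + r i * v.2 i) := by
  simp [qf, mul_add, add_mul, sum_add_distrib, Pi.single_apply]
  ring

lemma qf_snd (α β : ZMod 2) (r : U m) (v : V m) (i : Fin (m + 1)) :
    qf α β r (v + (0, Pi.single i 1)) =
      qf α β r v + (β * (Pi.single i 1 : U m) 0 + r i * v.1 i) := by
  simp [qf, mul_add, add_mul, sum_add_distrib, Pi.single_apply]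
  ring

lemma sg_abs (z : ZMod 2) : |sg z| = 1 := by rcases z2 z with rfl | rfl <;> simp [sg]

lemma card_V (m : ℕ) : Fintype.card (V m) = 4 ^ (m + 1) := by
  simp [← mul_pow]

lemma corr (α β : ZMod 2) (r : U m) (a : ℕ) (ha : a + m / 2 ≤ m)
    (hr : ∀ i : Fin (m + 1), a < i → i ≤ a + m / 2 → r i = 1) :
    2 ^ (m / 2) * ∑ w, |∑ v, sg (qf α β r v) * sg (qf α β r (v + w))| ≤
      (Fintype.card (V m) : ℝ) ^ 2 := by
  classical
  set I : Finset (Fin (m + 1)) := (Ioc a (a + m / 2)).attachFin fun x hx => by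
    have := mem_Ioc.1 hx; omega with hI
  have cI : #I = m / 2 := by simp [hI]
  set K : Finset (V m) := (Fintype.piFinset fun i => if i ∈ I then {0} else univ) ×ˢ univ with hK
  have cK : 2 ^ (m / 2) * #K = Fintype.card (V m) := by
    rw [hK, card_product, Fintype.card_piFinset, ← cI, ← prod_const, ← prod_ite_mem_eq,
      ← mul_assoc, ← prod_mul_distrib, prod_congr rfl (g := fun _ => 2) fun i _ => by
        split_ifs <;> simp]
    simp
  have h1 : ∀ w, |∑ v, sg (qf α β r v) * sg (qf α β r (v + w))| ≤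
      if w ∈ K then (Fintype.card (V m) : ℝ) else 0 := by
    intro w
    split_ifs with hw
    · refine (abs_sum_le_sum_abs _ _).trans ?_
      simp [abs_mul, sg_abs]
    · simp only [hK, mem_product, mem_univ, and_true, Fintype.mem_piFinset, not_forall] at hw
      obtain ⟨i, hi⟩ := hw
      have hi' : i ∈ I ∧ w.1 i = 1 := by
        split_ifs at hi with h
        · exact ⟨h, (z2 _).resolve_left (by simpa using hi)⟩
        · simp at hi
      have hi2 := mem_Ioc.1 (mem_attachFin _ |>.1 hi'.1)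
      rw [sum_flip _ ((0, Pi.single i 1) : V m) fun v => ?_, abs_zero]
      rw [add_right_comm, qf_snd, qf_snd, hr i hi2.1 hi2.2, Prod.fst_add, Pi.add_apply, hi'.2]
      generalize (β * (Pi.single i 1 : U m) 0) = c
      simp only [one_mul, sg_add, sg_one]
      rcases z2 c with rfl | rfl <;> rcases z2 (v.1 i) with e | e <;> simp [e, sg_zero, sg_one]
  have h2 := sum_le_sum fun w (_ : w ∈ univ) => h1 w
  rw [sum_ite_mem_eq, sum_const, nsmul_eq_mul] at h2
  have h3 : (2 : ℝ) ^ (m / 2) * #K = Fintype.card (V m) := by exact_mod_cast cK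
  calc _ ≤ 2 ^ (m / 2) * (#K * (Fintype.card (V m) : ℝ)) := by gcongr
    _ = _ := by rw [← mul_assoc, h3, sq]

lemma avg_one (ψ f : V m → ℝ) (ε : ℝ) (hε : 0 < ε) (hf : ∀ v, |f v| ≤ 1)
    (h : ∑ w, |∑ v, ψ v * ψ (v + w)| ≤ ε ^ 2 * (Fintype.card (V m) : ℝ) ^ 2) :
    ∑ k, |∑ v, ψ v * f (v + k)| ≤ ε * (Fintype.card (V m) : ℝ) ^ 2 := by
  have hN : (0 : ℝ) < Fintype.card (V m) := by exact_mod_cast Fintype.card_pos
  have h1 : ∑ k, (∑ v, ψ v * f (v + k)) ^ 2 =
      ∑ w, (∑ v, ψ v * ψ (v + w)) * ∑ y, f y * f (y + w) := by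
    simp only [sq, sum_mul_sum]
    rw [sum_comm]
    conv_rhs => rw [sum_comm]
    refine sum_congr rfl fun v _ => ?_
    rw [sum_comm, ← Equiv.sum_comp (Equiv.addLeft v)]
    refine sum_congr rfl fun w _ => ?_
    rw [← Equiv.sum_comp (Equiv.addLeft v) fun y => ψ v * ψ (v + w) * (f y * f (y + w))]
    refine sum_congr rfl fun k _ => ?_
    simp only [Equiv.coe_addLeft, add_right_comm v k w]
    ring
  have h2 : ∑ k, (∑ v, ψ v * f (v + k)) ^ 2 ≤ ε ^ 2 * (Fintype.card (V m) : ℝ) ^ 3 := by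
    rw [h1]
    calc _ ≤ ∑ w, |∑ v, ψ v * ψ (v + w)| * (Fintype.card (V m) : ℝ) := sum_le_sum fun w _ => by
          refine (le_abs_self _).trans ?_
          rw [abs_mul]
          gcongr
          refine (abs_sum_le_sum_abs _ _).trans ((sum_le_card_nsmul _ _ 1 fun y _ => ?_).trans
            (by simp))
          rw [abs_mul]
          exact mul_le_one₀ (hf _) (abs_nonneg _) (hf _)
      _ ≤ _ := by rw [← sum_mul]; nlinarith
  have h3 := sq_sum_le_card_mul_sum_sq (s := univ) (f := fun k => |∑ v, ψ v * f (v + k)|)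
  simp only [sq_abs, card_univ] at h3
  refine (abs_le_of_sq_le_sq' ?_ (by positivity)).2
  nlinarith

/-- lower coefficients -/
def r0 (m : ℕ) : U m := fun i => if 0 < i.1 ∧ i.1 ≤ m / 2 then 1 else 0
/-- upper coefficients -/
def r1 (m : ℕ) : U m := fun i => if m / 2 < i.1 then 1 else 0

/-- the pseudorandom quarter of a block -/
def L (m : ℕ) : Finset (V m) := univ.filter fun v => qf 1 0 (r0 m) v = 0 ∧ qf 0 1 (r1 m) v = 0

lemma L_sum (f : V m → ℝ) : 4 * ∑ v ∈ L m, f v - ∑ v, f v = ∑ v, sg (qf 1 0 (r0 m) v) * f v +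
    ∑ v, sg (qf 0 1 (r1 m) v) * f v + ∑ v, sg (qf (1 + 0) (0 + 1) (r0 m + r1 m) v) * f v := by
  rw [L, sum_filter, mul_sum, ← sum_sub_distrib, ← sum_add_distrib, ← sum_add_distrib]
  refine sum_congr rfl fun v _ => ?_
  rw [qf_add, sg_add]
  rcases z2 (qf 1 0 (r0 m) v) with e | e <;> rcases z2 (qf 0 1 (r1 m) v) with e' | e' <;>
    simp [e, e', sg] <;> ring

lemma L_card (m : ℕ) : #(L m) = 4 ^ m := by
  have h := L_sum (m := m) fun _ => 1
  rw [sum_flip (fun v => sg (qf 1 0 (r0 m) v) * 1) ((Pi.single 0 1, 0) : V m) fun v => by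
      simp [qf_fst, r0, sg_add, sg_one],
    sum_flip (fun v => sg (qf 0 1 (r1 m) v) * 1) ((0, Pi.single 0 1) : V m) fun v => by
      simp [qf_snd, r1, sg_add, sg_one],
    sum_flip (fun v => sg (qf (1 + 0) (0 + 1) (r0 m + r1 m) v) * 1) ((Pi.single 0 1, 0) : V m)
      fun v => by simp [qf_fst, r0, r1, sg_add, sg_one]] at h
  simp only [sum_const, card_univ, card_V, nsmul_eq_mul, mul_one] at h
  push_cast at h
  have : (#(L m) : ℝ) = 4 ^ m := by rw [pow_succ] at h; linarith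
  exact_mod_cast this

lemma L_avg (f : V m → ℝ) (ε : ℝ) (hε : 0 < ε) (hf : ∀ v, |f v| ≤ 1)
    (h : 1 ≤ ε ^ 2 * 2 ^ (m / 2)) :
    ∑ k, |4 * ∑ v ∈ L m, f (v + k) - ∑ v, f (v + k)| ≤ 3 * ε * (Fintype.card (V m) : ℝ) ^ 2 := by
  have key : ∀ α β r a, a + m / 2 ≤ m → (∀ i : Fin (m + 1), a < i → i ≤ a + m / 2 → r i = 1) →
      ∑ k, |∑ v, sg (qf α β r v) * f (v + k)| ≤ ε * (Fintype.card (V m) : ℝ) ^ 2 := by
    intro α β r a h1 h2
    refine avg_one _ f ε hε hf ?_
    have b1 := corr α β r a h1 h2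
    have b2 : 0 ≤ ∑ w, |∑ v, sg (qf α β r v) * sg (qf α β r (v + w))| :=
      sum_nonneg fun _ _ => abs_nonneg _
    nlinarith [mul_le_mul_of_nonneg_left b1 (sq_nonneg ε), mul_le_mul_of_nonneg_right h b2]
  have k0 := key 1 0 (r0 m) 0 (by omega) fun i h1 h2 => if_pos ⟨h1, by omega⟩
  have k1 := key 0 1 (r1 m) (m / 2) (by omega) fun i h1 h2 => if_pos h1
  have k2 := key (1 + 0) (0 + 1) (r0 m + r1 m) 0 (by omega) fun i h1 h2 => by
    rw [Pi.add_apply, r0, r1, if_pos ⟨h1, by omega⟩, if_neg (by omega), add_zero]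
  simp only [L_sum]
  refine (sum_le_sum fun k _ => abs_add_three _ _ _).trans ?_
  rw [sum_add_distrib, sum_add_distrib]
  linarith

end Pool.Agent.H286Z.EA
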