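import Mathlib

set_option autoImplicit false
set_option maxHeartbeats 400000

namespace Pool.Agent.H286Z.EA

lemma ex_sizes (J : ℕ) (hJ : 2000 ≤ J) : ∃ m : ℕ → ℕ, ∃ ε : ℕ → ℝ, ∃ C : ℕ,
    (∀ j, m (j + 1) = m j ∨ m (j + 1) = m j + 1) ∧ (∀ j, 0 < ε j) ∧
    (∀ j, 1 ≤ ε j ^ 2 * 2 ^ (m j / 2)) ∧ (∀ n, 810 * ∑ j ∈ Finset.range n, ε j ≤ 1) ∧
    ∀ n, ∀ j ≤ n, 4 ^ (m j + 1) ≤ C * (n + 1) ^ 16 := by
  have hJ' : (2000 : ℝ) ≤ J := by exact_mod_cast hJ
  have hp : ∀ j : ℕ, (0 : ℝ) < j + J - 1 := fun j => by linarith [j.cast_nonneg (α := ℝ)]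
  refine ⟨fun j => Nat.log 2 ((j + J) ^ 8), fun j => 2 / (((j : ℝ) + J - 1) * (j + J)), 4 * J ^ 16,
    fun j => ?_, fun j => by have := hp j; positivity, fun j => ?_, fun n => ?_, fun n j hj => ?_⟩
  · have a1 : Nat.log 2 ((j + J) ^ 8) ≤ Nat.log 2 ((j + 1 + J) ^ 8) :=
      Nat.log_mono_right (Nat.pow_le_pow_left (by omega) _)
    have a2 : (20 * (j + 1 + J)) ^ 8 ≤ (21 * (j + J)) ^ 8 := Nat.pow_le_pow_left (by omega) _
    rw [mul_pow, mul_pow] at a2
    have a3 : Nat.log 2 ((j + 1 + J) ^ 8) ≤ Nat.log 2 ((j + J) ^ 8 * 2) :=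
      Nat.log_mono_right (by omega)
    rw [Nat.log_mul_base (by norm_num) (by positivity)] at a3
    simp only
    omega
  · have a1 := Nat.lt_pow_succ_log_self (b := 2) (by norm_num) ((j + J) ^ 8)
    simp only
    generalize Nat.log 2 ((j + J) ^ 8) = k at *
    have a2 : ((j + J) ^ 4) ^ 2 < (2 * 2 ^ (k / 2)) ^ 2 := by
      rw [← pow_mul, ← pow_succ', ← pow_mul]
      exact a1.trans_le (Nat.pow_le_pow_right (by norm_num) (by omega))
    have a3 : ((j : ℝ) + J) ^ 4 < 2 * 2 ^ (k / 2) := by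
      exact_mod_cast lt_of_pow_lt_pow_left₀ 2 (by positivity) a2
    have a4 : (((j : ℝ) + J - 1) * (j + J)) ^ 2 ≤ ((j + J) * (j + J)) ^ 2 := by
      have := hp j
      gcongr; linarith
    rw [div_pow, div_mul_eq_mul_div, le_div_iff₀ (by have := hp j; positivity)]
    have a5 : (0 : ℝ) < 2 ^ (k / 2) := by positivity
    nlinarith
  · have : ∑ j ∈ Finset.range n, 2 / (((j : ℝ) + J - 1) * (j + J)) =
        2 / (J - 1) - 2 / (n + J - 1) := by
      induction n with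
      | zero => simp
      | succ n ih =>
        have b1 := hp n
        have b2 := hp (n + 1)
        have b3 : (0 : ℝ) < J - 1 := by linarith
        rw [Finset.sum_range_succ, ih]
        push_cast at *
        field_simp
        ring
    have b : (0 : ℝ) < 2 / (n + J - 1) := div_pos (by norm_num) (hp n)
    have b' : (2 : ℝ) / (J - 1) ≤ 1 / 810 := by
      rw [div_le_iff₀ (by linarith)]; linarith
    rw [this]; linarith
  · have a1 := Nat.pow_log_le_self 2 (show (j + J) ^ 8 ≠ 0 by positivity)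
    simp only
    generalize Nat.log 2 ((j + J) ^ 8) = k at *
    have a2 : (j + J) ^ 8 ≤ (J * (n + 1)) ^ 8 := Nat.pow_le_pow_left (by nlinarith) _
    calc 4 ^ (k + 1) = 4 * (2 ^ k) ^ 2 := by
          rw [pow_succ', ← pow_mul, mul_comm k, pow_mul]; norm_num
      _ ≤ 4 * ((J * (n + 1)) ^ 8) ^ 2 :=
          Nat.mul_le_mul_left _ (Nat.pow_le_pow_left (a1.trans a2) _)
      _ = _ := by ring

end Pool.Agent.H286Z.EA
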