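import Mathlib

set_option autoImplicit false
set_option maxHeartbeats 400000

namespace Pool.Agent.H286Z.EA
open Finset

/-- truncated power series over the field with two elements -/
abbrev U (m : ℕ) := Fin (m + 1) → ZMod 2
/-- a block -/
abbrev V (m : ℕ) := U m × U m

/-- sign character -/
def sg (z : ZMod 2) : ℝ := if z = 0 then 1 else -1

lemma z2 (z : ZMod 2) : z = 0 ∨ z = 1 := by revert z; decide
lemma z2_add (z : ZMod 2) : z + z = 0 := by revert z; decide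
lemma sg_zero : sg 0 = 1 := by simp [sg]
lemma sg_one : sg 1 = -1 := by simp [sg]
lemma sg_add (a b : ZMod 2) : sg (a + b) = sg a * sg b := by
  rcases z2 a with rfl | rfl <;> rcases z2 b with rfl | rfl <;> simp [sg, z2_add]

lemma U_add {m : ℕ} (x : U m) : x + x = 0 := funext fun i => z2_add (x i)
lemma V_add {m : ℕ} (x : V m) : x + x = 0 := Prod.ext (U_add _) (U_add _)

/-- multiplication by `t` -/
def tm {m : ℕ} (x : U m) : U m := Fin.cons 0 (Fin.init x)
/-- adjoint of multiplication by `t` -/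
def sh {m : ℕ} (x : U m) : U m := Fin.snoc (Fin.tail x) 0

lemma dot_tm {m : ℕ} (a x : U m) : a ⬝ᵥ tm x = sh a ⬝ᵥ x := by
  simp only [dotProduct]
  rw [Fin.sum_univ_succ, Fin.sum_univ_castSucc]
  simp [tm, sh, Fin.init, Fin.tail]

/-- pairing -/
def ip {m : ℕ} (a k : V m) : ZMod 2 := a.1 ⬝ᵥ k.1 + a.2 ⬝ᵥ k.2

lemma ip_add {m : ℕ} (a k k' : V m) : ip a (k + k') = ip a k + ip a k' := by
  simp only [ip, Prod.fst_add, Prod.snd_add, dotProduct_add]; ring

lemma add_ip {m : ℕ} (a a' k : V m) : ip (a + a') k = ip a k + ip a' k := by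
  simp only [ip, Prod.fst_add, Prod.snd_add, add_dotProduct]; ring

lemma sum_flip {A : Type} [Fintype A] [AddCommGroup A] (f : A → ℝ) (a : A)
    (h : ∀ x, f (x + a) = -f x) : ∑ x, f x = 0 := by
  have := Equiv.sum_comp (Equiv.addRight a) f
  simp only [Equiv.coe_addRight, h, sum_neg_distrib] at this
  linarith

lemma orth {m : ℕ} (k : V m) (hk : k ≠ 0) : ∑ a, sg (ip a k) = 0 := by
  obtain ⟨a, ha⟩ : ∃ a, ip a k = 1 := by
    by_contra h
    push Not at h
    refine hk (Prod.ext (funext fun i => ?_) (funext fun i => ?_))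
    · simpa [ip] using (z2 _).resolve_right (h (Pi.single i 1, 0))
    · simpa [ip] using (z2 _).resolve_right (h (0, Pi.single i 1))
  exact sum_flip _ a fun x => by rw [add_ip, ha, sg_add, sg_one]; ring

lemma parseval {m : ℕ} (h : V m → ℝ) :
    ∑ a, (∑ k, sg (ip a k) * h k) ^ 2 = Fintype.card (V m) * ∑ k, h k ^ 2 := by
  simp only [sq, sum_mul_sum]
  rw [sum_comm, mul_sum]
  refine sum_congr rfl fun k _ => ?_
  rw [sum_comm, sum_eq_single k]
  · have : ∀ a, sg (ip a k) * h k * (sg (ip a k) * h k) = h k * h k := fun a => by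
      rcases z2 (ip a k) with e | e <;> simp [e, sg]
    simp [this]
  · intro k' _ hk
    have : ∀ a, sg (ip a k) * h k * (sg (ip a k') * h k') = sg (ip a (k + k')) * (h k * h k') :=
      fun a => by rw [ip_add, sg_add]; ring
    simp only [this, ← sum_mul]
    rw [orth, zero_mul]
    intro e
    exact hk (by rw [← add_zero k', ← V_add k, ← add_assoc, add_comm k', e, zero_add])
  · simp

/-- the three linear generators -/
def lin {m : ℕ} : Fin 3 → V m → V m
  | 0, v => (v.1 + v.2, v.2)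
  | 1, v => (v.1 + tm v.2, v.2)
  | 2, v => (v.2, v.1)

/-- their adjoints -/
def adj {m : ℕ} : Fin 3 → V m → V m
  | 0, a => (a.1, a.2 + a.1)
  | 1, a => (a.1, a.2 + sh a.1)
  | 2, a => (a.2, a.1)

lemma lin_lin {m : ℕ} (i : Fin 3) (v : V m) : lin i (lin i v) = v := by
  fin_cases i <;> simp [lin, add_assoc, U_add]

lemma adj_adj {m : ℕ} (i : Fin 3) (v : V m) : adj i (adj i v) = v := by
  fin_cases i <;> simp [adj, add_assoc, U_add]

lemma ip_lin {m : ℕ} (i : Fin 3) (a k : V m) : ip a (lin i k) = ip (adj i a) k := by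
  fin_cases i <;> simp [ip, lin, adj, dot_tm] <;> ring

/-- the first translation -/
def e1 {m : ℕ} : V m := (Pi.single 0 1, 0)

/-- valuation comparison -/
def vlt {m : ℕ} (a b : U m) : Prop := ∃ i, a i ≠ 0 ∧ ∀ j ≤ i, b j = 0

lemma reg1 {m : ℕ} {a b : U m} (h : vlt a b) : ¬ vlt a (b + a) ∧ ¬ vlt (b + a) a ∧ a ≠ 0 := by
  obtain ⟨i, h1, h2⟩ := h
  refine ⟨?_, ?_, fun e => h1 (by simp [e])⟩
  · rintro ⟨j, h3, h4⟩
    rcases le_total i j with h | h
    · have := h4 i h; simp [h2 i le_rfl, h1] at this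
    · have := h4 j le_rfl; simp [h2 j h, h3] at this
  · rintro ⟨j, h3, h4⟩
    rcases le_total i j with h | h
    · exact h1 (h4 i h)
    · simp [h2 j h, h4 j le_rfl] at h3

lemma reg2 {m : ℕ} {a b : U m} (h : ¬ vlt b a) (h0 : (a, b) ≠ 0) (h1 : a 0 = 0) :
    vlt (b + sh a) a := by
  have ha : ∃ i, a i ≠ 0 := by
    by_contra h'
    push Not at h'
    refine h0 (Prod.ext (funext h') (funext fun i => ?_))
    by_contra h''
    exact h ⟨i, h'', fun j _ => h' j⟩
  obtain ⟨i, hi, hmin⟩ := (wellFounded_lt (α := Fin (m + 1))).has_min {i | a i ≠ 0} ha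
  have hz : ∀ j < i, a j = 0 := fun j hj => by
    by_contra h'; exact hmin j h' hj
  obtain ⟨i, rfl⟩ := Fin.exists_succ_eq.2 (show i ≠ 0 from fun e => hi (e ▸ h1))
  have hz' : ∀ j ≤ i.castSucc, a j = 0 := fun j hj => hz j (hj.trans_lt i.castSucc_lt_succ)
  refine ⟨i.castSucc, ?_, hz'⟩
  have : b i.castSucc = 0 := by
    by_contra h'; exact h ⟨_, h', hz'⟩
  simpa [this, sh, Fin.tail] using hi

lemma abstract_gap {m : ℕ} (μ : V m → ℝ) (ν : Fin 3 → V m → ℝ) (κ : ℝ) (μ0 : ∀ a, 0 ≤ μ a)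
    (ν0 : ∀ i a, 0 ≤ ν i a) (hν : ∀ i, ∑ a, ν i a ≤ κ)
    (a1 : ∀ i a, μ (adj i a) ≤ 5 / 4 * μ a + 5 * ν i a)
    (keyD : 4 * ∑ a with a.1 0 ≠ 0, μ a ≤ κ) : ∑ a, μ a - μ 0 ≤ 250 * κ := by
  classical
  have key : ∀ i (A B : Finset (V m)), (∀ a ∈ A, adj i a ∈ B) →
      ∑ a ∈ A, μ a ≤ 5 / 4 * ∑ a ∈ B, μ a + 5 * κ := by
    intro i A B hAB
    have hinj : Function.Injective (adj (m := m) i) := Function.Involutive.injective (adj_adj i)
    calc _ = ∑ a ∈ A.image (adj i), μ (adj i a) := by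
          rw [sum_image fun _ _ _ _ h => hinj h]; simp only [adj_adj]
      _ ≤ ∑ a ∈ A.image (adj i), (5 / 4 * μ a + 5 * ν i a) := sum_le_sum fun a _ => a1 i a
      _ ≤ _ := by
          rw [sum_add_distrib, ← mul_sum, ← mul_sum]
          have c1 : ∑ a ∈ A.image (adj i), μ a ≤ ∑ a ∈ B, μ a :=
            sum_le_sum_of_subset_of_nonneg (image_subset_iff.2 hAB) fun _ _ _ => μ0 _
          have c2 : ∑ a ∈ A.image (adj i), ν i a ≤ κ :=
            (sum_le_univ_sum_of_nonneg (ν0 _)).trans (hν i)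
          linarith
  have k1 := key 0 (univ.filter fun a => vlt a.1 a.2)
    (univ.filter fun a => ¬ vlt a.1 a.2 ∧ ¬ vlt a.2 a.1 ∧ a ≠ 0) fun a ha => by
    obtain ⟨b1, b2, b3⟩ := reg1 (mem_filter.1 ha).2
    exact mem_filter.2 ⟨mem_univ _, b1, b2, fun e => b3 (congrArg Prod.fst e)⟩
  have k2 := key 2 (univ.filter fun a => vlt a.2 a.1) (univ.filter fun a => vlt a.1 a.2)
    fun a ha => mem_filter.2 ⟨mem_univ _, (mem_filter.1 ha).2⟩
  have k3 := key 1 (univ.filter fun a => ¬ vlt a.2 a.1 ∧ a ≠ 0 ∧ a.1 0 = 0)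
    (univ.filter fun a => vlt a.2 a.1) fun a ha => by
    obtain ⟨b1, b2, b3⟩ := (mem_filter.1 ha).2
    exact mem_filter.2 ⟨mem_univ _, reg2 b1 b2 b3⟩
  have k4 : ∑ a with vlt a.1 a.2, μ a + ∑ a with ¬ vlt a.1 a.2 ∧ ¬ vlt a.2 a.1 ∧ a ≠ 0, μ a ≤
      ∑ a with ¬ vlt a.2 a.1 ∧ a ≠ 0 ∧ a.1 0 = 0, μ a + ∑ a with a.1 0 ≠ 0, μ a := by
    simp only [sum_filter, ← sum_add_distrib]
    refine sum_le_sum fun a _ => ?_
    have := μ0 a
    have b : vlt a.1 a.2 → ¬ vlt a.2 a.1 ∧ a ≠ 0 := by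
      rintro ⟨i, b1, b2⟩
      refine ⟨fun ⟨j, b3, b4⟩ => ?_, fun e => b1 (by simp [e])⟩
      rcases le_total i j with h | h
      exacts [b1 (b4 i h), b3 (b2 j h)]
    split_ifs <;> first | linarith | tauto
  have k5 : ∑ a, μ a ≤ μ 0 + ∑ a with vlt a.1 a.2, μ a +
      ∑ a with ¬ vlt a.1 a.2 ∧ ¬ vlt a.2 a.1 ∧ a ≠ 0, μ a + ∑ a with vlt a.2 a.1, μ a := by
    have : μ 0 = ∑ a, if a = 0 then μ a else 0 := by simp
    rw [this]
    simp only [sum_filter, ← sum_add_distrib]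
    refine sum_le_sum fun a _ => ?_
    have := μ0 a
    split_ifs <;> first | linarith | tauto
  have k7 : 0 ≤ κ := le_trans (mul_nonneg (by norm_num) (sum_nonneg fun _ _ => μ0 _)) keyD
  linarith

/-- spectral mass -/
noncomputable def mu {m : ℕ} {Y : Type} [Fintype Y] (τ : V m → Y → Y) (g : Y → ℝ) (a : V m) : ℝ :=
  ∑ y, (∑ k, sg (ip a k) * g (τ k y)) ^ 2

theorem spectral {m : ℕ} {Y : Type} [Fintype Y] (τ : V m → Y → Y) (σ : Fin 3 → Y → Y)
    (h0 : ∀ y, τ 0 y = y) (hadd : ∀ k k' y, τ (k + k') y = τ k' (τ k y))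
    (hσ : ∀ i y, σ i (σ i y) = y) (hc : ∀ i k y, σ i (τ k y) = τ (lin i k) (σ i y))
    (f : Y → ℝ) (ε : ℝ) (h1 : ∑ y, (f (τ e1 y) - f y) ^ 2 ≤ ε)
    (h2 : ∀ i, ∑ y, (f (σ i y) - f y) ^ 2 ≤ ε) :
    (Fintype.card (V m) : ℝ) ^ 2 * ∑ y, f y ^ 2 - ∑ y, (∑ k, f (τ k y)) ^ 2 ≤
      250 * ((Fintype.card (V m) : ℝ) ^ 2 * ε) := by
  classical
  have hτ : ∀ k (g : Y → ℝ), ∑ y, g (τ k y) = ∑ y, g y := fun k g =>
    Equiv.sum_comp (Function.Involutive.toPerm (τ k) fun y => by rw [← hadd, V_add, h0]) g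
  have μ0 : ∀ g a, 0 ≤ mu τ g a := fun g a => sum_nonneg fun _ _ => sq_nonneg _
  have tot : ∀ g, ∑ a, mu τ g a = (Fintype.card (V m) : ℝ) ^ 2 * ∑ y, g y ^ 2 := fun g => by
    unfold mu
    rw [sum_comm]
    simp only [parseval, ← mul_sum]
    rw [sum_comm]
    simp only [hτ _ fun y => g y ^ 2, sum_const, card_univ, nsmul_eq_mul]
    ring
  have k6 : mu τ f 0 = ∑ y, (∑ k, f (τ k y)) ^ 2 := by simp [mu, ip, sg]
  rw [← tot, ← k6]
  refine abstract_gap _ (fun i => mu τ fun y => f (σ i y) - f y) _ (μ0 f) (fun _ => μ0 _)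
    (fun i => (tot _).trans_le (mul_le_mul_of_nonneg_left (h2 i) (sq_nonneg _))) (fun i a => ?_) ?_
  · have b1 : mu τ f (adj i a) = mu τ (fun y => f (σ i y)) a := by
      simp only [mu, hc]
      rw [← Equiv.sum_comp (Function.Involutive.toPerm (σ i) (hσ i))]
      refine sum_congr rfl fun y _ => ?_
      rw [← Equiv.sum_comp (Function.Involutive.toPerm (lin i) (lin_lin i))]
      simp only [Function.Involutive.coe_toPerm, ← ip_lin, lin_lin]
    rw [b1]
    unfold mu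
    rw [mul_sum, mul_sum, ← sum_add_distrib]
    refine sum_le_sum fun y _ => ?_
    simp only [mul_sub, sum_sub_distrib]
    generalize (∑ k, sg (ip a k) * f (τ k y)) = p
    generalize (∑ k, sg (ip a k) * f (σ i (τ k y))) = q
    nlinarith [sq_nonneg (p * 5 - 4 * q)]
  · refine le_trans ?_ ((tot _).trans_le (mul_le_mul_of_nonneg_left h1 (sq_nonneg _)))
    rw [mul_sum]
    refine le_trans (le_of_eq (sum_congr rfl fun a ha => ?_)) (sum_le_univ_sum_of_nonneg (μ0 _))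
    have b0 : ip a e1 = 1 := by
      simpa [ip, e1] using (z2 _).resolve_left (mem_filter.1 ha).2
    unfold mu
    rw [mul_sum]
    refine sum_congr rfl fun y _ => ?_
    have : ∑ k, sg (ip a k) * f (τ e1 (τ k y)) = -∑ k, sg (ip a k) * f (τ k y) := by
      rw [← Equiv.sum_comp (Equiv.addRight e1) fun k => sg (ip a k) * f (τ k y), ← sum_neg_distrib]
      simp only [Equiv.coe_addRight, ip_add, sg_add, b0, sg_one, hadd]
      exact sum_congr rfl fun k _ => by ring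
    simp only [mul_sub, sum_sub_distrib]
    rw [this]; ring

end Pool.Agent.H286Z.EA
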